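import Pool.Agent.H482R3.EA.Stm
import Pool.Agent.H305R2.EA.Seinsche

/-!
# P4-free relations split (task COG)
-/

set_option autoImplicit false

namespace H305R2.EA

open Pool.Agent.H482R3.EA

theorem t_COG : S_COG := by
  intro n r hn hs hi hP
  classical
  have hP' : NoP4 r := by
    intro a b c d hab hac had hbc hbd hcd h1 h2 h3
    by_contra hcon
    push Not at hcon
    exact hP ⟨a, b, c, d, hac, had, hbd, h1, h2, h3, hcon.1, hcon.2.1, hcon.2.2⟩
  obtain ⟨m, rfl⟩ := Nat.exists_eq_add_of_le' hn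
  obtain ⟨U, -, hU1, hU2, hE⟩ := seinsche r hs hP' m Finset.univ
    (by rw [Finset.card_univ, Fintype.card_fin])
  have hc : ∀ v : Fin (m + 2), v ∈ ((U : Set (Fin (m + 2)))ᶜ) ↔ v ∈ Finset.univ \ U := by
    intro v
    simp
  refine ⟨(U : Set (Fin (m + 2))), hU1, ?_, ?_⟩
  · obtain ⟨v, hv⟩ := hU2
    exact ⟨v, (hc v).2 hv⟩
  · rcases hE with h | h
    · right
      intro x hx y hy
      exact h x hx y ((hc y).1 hy)
    · left
      intro x hx y hy
      exact h x hx y ((hc y).1 hy)

end H305R2.EA
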